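import Pool.Agent.J4H81.HL.SD
import Pool.Agent.J4H57.HL.Win

/-!
# The Hardy-Littlewood asymptotic formula for almost all admissible sets of up to `log X / (log log X) ^ 4` elements

Method (helper81, with parts by helper57 and helper69): let `l` be a scale for which the L-functions of conductor up to `exp l`
have no zeros within `c / l` of the line `σ = 1` (there are arbitrarily large such `l`), `W` the product of the primes up to
`w = l / 1000`, `X = exp (A l log l)` and `y ≥ X`. Let `h` be an admissible residue vector modulo `W` and `V (h)` the set of the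
classes `c` for which all `c + h i` are units. The number `R` of the solutions, divided by its expected value up to the factors
at the primes beyond `w`, is compared with one in the mean over all admissible `h` and all lifts: from below by the second
moments in the classes and windows in which the primes have the expected mass and energy on the major arcs (`HL/UA`), from above
by the first moment (`HL/UB`), where the primes in the exceptional classes are counted with the Brun-Titchmarsh inequality. For a
random admissible `h` and a random `c` in `V (h)` the values `c + h i` are not independent, but they hit a small set of classes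
no more often than independent ones up to a factor `120 w ^ 2` for each coordinate (Chinese remainder theorem and an occupancy
inequality, `J4H57/HL/Mu`). The factors of the singular series at the primes beyond `w` are close to one for almost all lifts
(`J4H69/HL/Sing`, `J4H57/HL/Tail`).
-/

set_option autoImplicit false

namespace Pool.Agent.Results.MP_8923e7_nt.AlmostAllGrowingTuples

open Finset

/-- `A` is admissible: for every prime `p` some residue class modulo `p` contains no element of `A`. -/
def Admissible (A : Finset ℕ) : Prop := ∀ p : ℕ, p.Prime → ∃ c : ℕ, ∀ a ∈ A, ¬ a ≡ c [MOD p]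

/-- The admissible sets of `k` integers `0 ≤ a ≤ y`. -/
def admissible (y k : ℕ) : Set (Finset ℕ) := {A | A.card = k ∧ (∀ a ∈ A, a ≤ y) ∧ Admissible A}

/-- The number of the integers `1 ≤ n ≤ y` for which all the `n + a`, `a ∈ A`, are prime. -/
def count (y : ℕ) (A : Finset ℕ) : ℕ := ((Icc 1 y).filter (fun n => ∀ a ∈ A, (n + a).Prime)).card

/-- The factor at `p` of the singular series of `A`: `(1 - ν / p) / (1 - 1 / p) ^ |A|`, where `ν` is the number of the residue
classes modulo `p` which contain an element of `A`. -/
noncomputable def factor (A : Finset ℕ) (p : ℕ) : ℝ := (1 - ((A.image (· % p)).card : ℝ) / p) / (1 - 1 / (p : ℝ)) ^ A.card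

/-- The singular series of `A`, the product of the factors at all primes `p` (it converges, see `multipliable_factor`, and is
positive if `A` is admissible, see `singularSeries_pos`). -/
noncomputable def singularSeries (A : Finset ℕ) : ℝ := ∏' p : Nat.Primes, factor A p

/-- The main term of Hardy and Littlewood. -/
noncomputable def mainTerm (y : ℕ) (A : Finset ℕ) : ℝ := singularSeries A * (y / Real.log y ^ A.card)

/-- The admissible sets of `k` integers `0 ≤ a ≤ y` for which the number of the `n` differs from the main term by more than `ρ`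
times the main term. -/
def exceptional (y k : ℕ) (ρ : ℝ) : Set (Finset ℕ) :=
  {A ∈ admissible y k | ρ * mainTerm y A < |(count y A : ℝ) - mainTerm y A|}

theorem multipliable_factor (A : Finset ℕ) : Multipliable (fun p : Nat.Primes => factor A p) :=
  Pool.Agent.J4H57.HL.multipliable_loc A

theorem singularSeries_pos {A : Finset ℕ} (hA : Admissible A) : 0 < singularSeries A :=
  Pool.Agent.J4H81.HL.sing_pos hA

open Classical in
lemma admissible_eq (y k : ℕ) : admissible y k = (Pool.Agent.J4H81.PT.admissibleSets y k : Set (Finset ℕ)) := by
  ext A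
  unfold admissible Pool.Agent.J4H81.PT.admissibleSets
  rw [Finset.mem_coe, mem_filter, mem_powersetCard, Set.mem_ofPred_eq]
  constructor
  · rintro ⟨h1, h2, h3⟩
    exact ⟨⟨fun a ha => mem_range.2 (Nat.lt_succ_of_le (h2 a ha)), h1⟩, h3⟩
  · rintro ⟨⟨h2, h1⟩, h3⟩
    exact ⟨h1, fun a ha => Nat.lt_succ_iff.1 (mem_range.1 (h2 ha)), h3⟩

open Classical in
lemma exceptional_eq (y k : ℕ) (ρ : ℝ) : exceptional y k ρ =
    (((Pool.Agent.J4H81.PT.admissibleSets y k).filter (Pool.Agent.J4H81.HL.Far y k ρ) : Finset (Finset ℕ)) :
      Set (Finset ℕ)) := by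
  ext A
  unfold exceptional
  rw [admissible_eq, Finset.mem_coe, mem_filter, Set.mem_ofPred_eq, Finset.mem_coe]
  have key : A ∈ Pool.Agent.J4H81.PT.admissibleSets y k →
      (ρ * mainTerm y A < |(count y A : ℝ) - mainTerm y A| ↔ Pool.Agent.J4H81.HL.Far y k ρ A) := by
    intro hA
    have hcard : A.card = k := by
      unfold Pool.Agent.J4H81.PT.admissibleSets at hA
      rw [mem_filter, mem_powersetCard] at hA
      exact hA.1.2
    unfold Pool.Agent.J4H81.HL.Far
    rw [not_le, ← hcard]
    rfl
  exact ⟨fun h => ⟨h.1, (key h.1).1 h.2⟩, fun h => ⟨h.1, (key h.1).2 h.2⟩⟩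

/-- The saving: the square root of `log log X * (k / log X) ^ (1 / 2)`. It is at most `(log log X) ^ (-1 / 2)` if
`k ≤ log X / (log log X) ^ 4`, and a negative power of `log X` if `k ≤ (log X) ^ (1 - δ)`. -/
noncomputable def saving (X : ℝ) (k : ℕ) : ℝ := Real.sqrt (Real.log (Real.log X) * Real.sqrt (k / Real.log X))

/-- There are a constant `C` and arbitrarily large `X` such that for all integers `y` with `X ≤ y ≤ exp ((log X) ^ (3 / 2))` and
all `1 ≤ k ≤ log X / (log log X) ^ 4` the following holds: for all admissible sets `A` of `k` integers `0 ≤ a ≤ y`, with the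
exception of at most the proportion `C saving (X, k)`, the number of the `1 ≤ n ≤ y` with all `n + a` prime is
`(1 + O (1) C saving (X, k)) singularSeries A * y / (log y) ^ k` with `|O (1)| ≤ 1`. -/
theorem result : ∃ C : ℝ, 0 < C ∧ ∀ X₀ : ℝ, ∃ X : ℝ, X₀ ≤ X ∧ 3 ≤ X ∧
    ∀ y : ℕ, X ≤ y → Real.log y ≤ Real.log X ^ (3 / 2 : ℝ) →
    ∀ k : ℕ, 1 ≤ k → (k : ℝ) ≤ Real.log X / Real.log (Real.log X) ^ 4 →
      ((exceptional y k (C * saving X k)).ncard : ℝ) ≤ C * saving X k * (admissible y k).ncard := by
  classical
  obtain ⟨C, hC, h⟩ := Pool.Agent.J4H81.HL.umain2 Pool.Agent.J4H57.HL.t_WIN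
  refine ⟨C, hC, fun X₀ => ?_⟩
  obtain ⟨X, h1, h2, h3⟩ := h X₀
  refine ⟨X, h1, h2, fun y hy hy2 k hk hk2 => ?_⟩
  have h := h3 y hy hy2 k hk hk2
  unfold saving
  rw [admissible_eq, exceptional_eq, Set.ncard_coe_finset, Set.ncard_coe_finset]
  convert h using 3

end Pool.Agent.Results.MP_8923e7_nt.AlmostAllGrowingTuples
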