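import Mathlib
import Pool.Agent.J4H35.ZC.Cons

/-!
# Every admissible 43-tuple contains two primes

`DHL[43,2]`: for every admissible set of 43 integers `a i` there are many `n` such that at least two of the
numbers `n + a i` are prime and no other number of the interval which they span is prime. The numbers known
before are 50 (Polymath 2014) and 45 (starting files). The new ingredient is an equidistribution theorem for
the primes to moduli whose factors can be grouped suitably, in which the Heath-Brown identity with four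
smooth variables is combined with a dispersion estimate for convolutions with a smooth factor
(`Pool.Agent.J4H35.ZZ.s_zz3`); it allows pairs of cells of the sieve weight up to the level `0.515`.
-/

set_option autoImplicit false

namespace Pool.Agent.Results.MP_8923e7_nt.AnyFortyThree

theorem aux {P : ℕ → Prop} {_ : DecidablePred P} {x c : ℝ} (hx : 0 ≤ x)
    (h : c ≤ (((Finset.Icc 1 ⌊x⌋₊).filter (fun n : ℕ => P n)).card : ℝ)) :
    c ≤ (Set.ncard {n : ℕ | 1 ≤ n ∧ (n : ℝ) ≤ x ∧ P n} : ℝ) := by
  have hS : {n : ℕ | 1 ≤ n ∧ (n : ℝ) ≤ x ∧ P n} =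
      (((Finset.Icc 1 ⌊x⌋₊).filter (fun n : ℕ => P n) : Finset ℕ) : Set ℕ) := by
    ext n
    simp only [Set.mem_ofPred_eq, Finset.coe_filter, Finset.mem_Icc, Nat.le_floor_iff hx, and_assoc]
  rw [hS, Set.ncard_coe_finset]
  exact h

/-- For all distinct integers `a 0, ..., a 42` which do not meet all residue classes modulo any prime, and all
`ε > 0`, for all large `x` there are at least `x ^ (1 - ε)` integers `1 ≤ n ≤ x` such that two of the numbers
`n + a i` are prime and every prime between the least and the largest of the `n + a i` is one of them. -/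
theorem result (a : Fin 43 → ℤ) (ha : Function.Injective a)
    (hadm : ∀ p : ℕ, p.Prime → ∃ r : ℤ, ∀ i, ¬ (p : ℤ) ∣ r + a i) (ε : ℝ) (hε : 0 < ε) :
    ∀ᶠ x : ℝ in Filter.atTop,
      x ^ (1 - ε) ≤ (Set.ncard {n : ℕ | 1 ≤ n ∧ (n : ℝ) ≤ x ∧
        (∃ i j, i ≠ j ∧ ∃ p q : ℕ, p.Prime ∧ q.Prime ∧ (p : ℤ) = n + a i ∧ (q : ℤ) = n + a j) ∧
        ∀ p : ℕ, p.Prime → (∃ i j, (n : ℤ) + a i ≤ p ∧ (p : ℤ) ≤ n + a j) → ∃ i, (p : ℤ) = n + a i} : ℝ) := by
  filter_upwards [Pool.Agent.J4H35.ZC.dhl43_consecutive a ha hadm ε hε, Filter.eventually_ge_atTop (0 : ℝ)]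
    with x h hx
  exact aux hx h

end Pool.Agent.Results.MP_8923e7_nt.AnyFortyThree
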