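import Mathlib
import Pool.Agent.J4H29.G4

/-!
# Primes against parity conditions in admissible systems of linear forms

Let `k` forms be given with `log k > 4 (r - 1) + 2 s + 0.58` (and `log k > 8.58`; or `k ≥ 5`, `r = 1`, `s ≤ 1`), and let the
parities of the numbers of prime factors of the values of `s` arbitrary further forms be prescribed. There are many
`n` such that the number of primes among the values of the `k` forms is at least `r` plus the number of violated
parity conditions. For `s = 0` this is the theorem of Maynard and Tao (with the constant of the starting files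
`Pool.Agent.H358R5`); every prime can be traded for two parity conditions, although the parity conditions alone
cannot be decided by a sieve. For example at least one prime and at least `s + 1` numbers with an odd number of
prime factors occur in every admissible `(k + s)`-tuple with `log k > 2 s + 0.58`, `s ≥ 4`.

Proof. Weights of Maynard's type for the `k` forms (with a very small support for the other ones). The number of
the primes has the mean value `M_k / 4 > r - 1 + s / 2`, by the theorem of Bombieri and Vinogradov, and the number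
of violated conditions has the mean value `s / 2`, by a theorem of Bombieri-Vinogradov type for Liouville's
function.
-/

set_option autoImplicit false

open Finset Filter

namespace Pool.Agent.Results.MP_8923e7_nt.PrimesAgainstParity

/-- `m` is a product of at most `R` distinct primes, all larger than `y` -/
def AlmostPrime (y : ℝ) (R m : ℕ) : Prop :=
  (Squarefree m ∧ ∀ q : ℕ, q.Prime → q ∣ m → y < q) ∧ ArithmeticFunction.cardFactors m ≤ R

/-- for every `l` there are, beyond every bound, arithmetic progressions of length `l`, with difference at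
most a fixed power of the logarithm of the first term, contained in `S` -/
def NarrowProgressions (S : Set ℕ) : Prop := ∀ l : ℕ, ∃ B : ℕ, ∀ x₀ : ℕ, ∃ a d : ℕ, x₀ ≤ a ∧ 1 ≤ d ∧
  (d : ℝ) ≤ Real.log a ^ B ∧ ∀ i < l, a + i * d ∈ S

/-- the forms `A i * n + B i` are pairwise not proportional, their product has no fixed prime divisor -/
def AdmissibleForms {J : ℕ} (A B : Fin J → ℕ) : Prop :=
  (∀ i, 1 ≤ A i) ∧ (∀ i j, i ≠ j → A i * B j ≠ A j * B i) ∧
    ∀ p : ℕ, p.Prime → ∃ n : ℕ, ∀ i, ¬ p ∣ A i * n + B i

open Classical in
/-- the indices `i < k` for which `A i * n + B i` is prime -/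
noncomputable def primes {J : ℕ} (k : ℕ) (A B : Fin J → ℕ) (n : ℕ) : Finset (Fin J) :=
  univ.filter fun i => i.val < k ∧ (A i * n + B i).Prime

open Classical in
/-- the violated parity conditions: the number of prime factors of `α t * n + β t` is not congruent to `e t`
modulo 2 -/
noncomputable def violated {s : ℕ} (α β e : Fin s → ℕ) (n : ℕ) : Finset (Fin s) :=
  univ.filter fun t => ¬ Even (ArithmeticFunction.cardFactors (α t * n + β t) + e t)

theorem result (k r s J : ℕ) (hJ : k ≤ J)
    (h : (5 ≤ k ∧ r = 1 ∧ s ≤ 1) ∨
      (1 ≤ r ∧ 8 + 29 / 50 < Real.log k ∧ 4 * ((r : ℝ) - 1) + 2 * s + 29 / 50 < Real.log k)) :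
    ∃ (κ : ℝ) (R : ℕ), 0 < κ ∧ ∀ A B : Fin J → ℕ, AdmissibleForms A B →
    ∀ α β e : Fin s → ℕ, (∀ t, 1 ≤ α t) →
    (∃ c : ℝ, 0 < c ∧ ∀ᶠ X : ℝ in atTop, c * X / Real.log X ^ J ≤
      ({n : ℕ | 1 ≤ n ∧ (n : ℝ) ≤ X ∧ (∀ l, AlmostPrime (X ^ κ) R (A l * n + B l)) ∧
        r + (violated α β e n).card ≤ (primes k A B n).card}.ncard : ℝ)) ∧
    ∃ (P : Finset (Fin J)) (V : Finset (Fin s)), r + V.card ≤ P.card ∧
      NarrowProgressions {n : ℕ | (∀ l, AlmostPrime ((n : ℝ) ^ κ) R (A l * n + B l)) ∧
        violated α β e n = V ∧ primes k A B n = P} :=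
  Pool.Agent.J4H29.trade h J hJ

end Pool.Agent.Results.MP_8923e7_nt.PrimesAgainstParity
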