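import Pool.Agent.J4H32.MV.Sz4

/-!
# Szemerédi's theorem inside the prime constellations of given shape, for all but `X ^ (k - o (1))` vectors of shifts

For all `k`, `A`, `J` and `η > 0` there is `B` such that for `X` in arbitrarily long ranges and all but few of the admissible
vectors `(m_1, ..., m_k)` with entries in `[1, X]`: every subset `S` with at least the `η`-th part of the primes `p` in `(X, 2 X]`
for which all the `p + m_i` are prime has a difference `1 ≤ d ≤ (log X) ^ B` such that for at least `X ^ (99 / 100)` elements `a`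
of `S` the progression `a, a + d, ..., a + J d` lies in `S`.

Method (helper32; library parts by helpers 6, 19, 45, 57, 68, 73, 79, 81, 843 and 256): the Hardy–Littlewood formula for all but
few vectors (a comparison with a truncated singular series at scales without zeros near one) shows that the primes `p` have
positive density inside the set sifted by the small primes; Szemerédi's theorem relative to such sifted sets is then applied to
the subset in short windows (helper73). The local densities of the sifted set are bounded by those of the singular series.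
-/

set_option autoImplicit false

namespace Pool.Agent.Results.MP_8923e7_nt.ProgressionsInConstellations

open Finset Filter

/-- The set of the primes `p` with `X < p ≤ 2 X` for which all the `p + m_i` are prime. -/
noncomputable def constellations {k : ℕ} (m : Fin k → ℕ) (X : ℕ) : Finset ℕ :=
  (Ioc X (2 * X)).filter (fun p => p.Prime ∧ ∀ i, (p + m i).Prime)

/-- The constellation `p, p + m_1, ..., p + m_k` is admissible: for every prime `q` there is an integer `r` such that `q`
divides none of `r, r + m_1, ..., r + m_k`. -/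
def Admissible {k : ℕ} (m : Fin k → ℕ) : Prop := ∀ q : ℕ, q.Prime → ∃ r : ℕ, ¬ q ∣ r ∧ ∀ i, ¬ q ∣ r + m i

/-- The number of the progressions `a, a + d, ..., a + J d` in `S` with difference `d`. -/
def progressions (S : Finset ℕ) (J d : ℕ) : ℕ := (S.filter (fun a => ∀ j ≤ J, a + j * d ∈ S)).card

/-- The exceptional vectors: admissible, with entries in `[1, X]`, for which some subset `S` of `constellations m X` with at least
`η |constellations m X|` elements has no difference `1 ≤ d ≤ (log X) ^ B` with at least `X ^ (99 / 100)` progressions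
`a, a + d, ..., a + J d` in `S`. -/
def exceptional (k J B : ℕ) (η : ℝ) (X : ℕ) : Set (Fin k → ℕ) :=
  {m | (∀ i, 1 ≤ m i ∧ m i ≤ X) ∧ Admissible m ∧
    ∃ S ⊆ constellations m X, η * (constellations m X).card ≤ S.card ∧
      ¬ ∃ d : ℕ, 1 ≤ d ∧ (d : ℝ) ≤ Real.log X ^ B ∧ (X : ℝ) ^ (99 / 100 : ℝ) ≤ (progressions S J d : ℝ)}

/-- For all `k`, `A`, `J` and `η > 0` there is `B` such that there are arbitrarily large `Y` such that for every `X` with
`Y ≤ X ≤ Y ^ ((log log Y) ^ A)` there are at most `X ^ k exp (-log X / (log log X) ^ (A + 6))` exceptional vectors. -/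
theorem result (k A J : ℕ) (η : ℝ) (hη : 0 < η) : ∃ B : ℕ, ∀ Y₀ : ℝ, ∃ Y : ℝ, Y₀ ≤ Y ∧
    ∀ X : ℕ, Y ≤ X → (X : ℝ) ≤ Y ^ (Real.log (Real.log Y) ^ A) →
      ((exceptional k J B η X).ncard : ℝ) ≤ (X : ℝ) ^ k * Real.exp (-(Real.log X / Real.log (Real.log X) ^ (A + 6))) := by
  classical
  obtain ⟨B, hB⟩ := Pool.Agent.J4H32.MV.scGY k A J (fun _ => false) η hη
  refine ⟨B, fun Y₀ => ?_⟩
  obtain ⟨Y, hY, hYX⟩ := hB Y₀
  refine ⟨Y, hY, fun X h1 h2 => ?_⟩
  refine le_trans (le_of_eq ?_) (hYX X h1 h2)
  congr 1
  rw [← Set.ncard_coe_finset]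
  congr 1
  ext m
  have hcst : constellations m X = Pool.Agent.J4H32.MV.PX (fun _ => false) m X := by
    unfold constellations Pool.Agent.J4H32.MV.PX
    apply filter_congr
    intro p _
    constructor
    · rintro ⟨h1, h2⟩ j
      refine Fin.cases ?_ (fun i => ?_) j
      · rw [Pool.Agent.J4H32.MV.fj_zero]
        exact h1
      · rw [Pool.Agent.J4H32.MV.fj_false m p (i := i) rfl]
        exact h2 i
    · intro h
      refine ⟨by simpa only [Pool.Agent.J4H32.MV.fj_zero] using h 0, fun i => ?_⟩
      have h2 := h i.succ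
      rw [Pool.Agent.J4H32.MV.fj_false m p (i := i) rfl] at h2
      exact h2
  have hadm : Admissible m ↔ Pool.Agent.J4H81.GB.AdX (fun _ => false) m := by
    unfold Admissible Pool.Agent.J4H81.GB.AdX
    refine forall_congr' fun q => forall_congr' fun _ => exists_congr fun r => ?_
    constructor
    · rintro ⟨h1, h2⟩ j
      refine Fin.cases ?_ (fun i => ?_) j
      · rw [Pool.Agent.J4H32.MV.es_zero, add_zero, Int.natCast_dvd_natCast]
        exact h1
      · rw [Pool.Agent.J4H32.MV.es_false m (i := i) rfl, ← Nat.cast_add, Int.natCast_dvd_natCast]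
        exact h2 i
    · intro h
      refine ⟨?_, fun i => ?_⟩
      · have h2 := h 0
        rw [Pool.Agent.J4H32.MV.es_zero, add_zero, Int.natCast_dvd_natCast] at h2
        exact h2
      · have h2 := h i.succ
        rw [Pool.Agent.J4H32.MV.es_false m (i := i) rfl, ← Nat.cast_add, Int.natCast_dvd_natCast] at h2
        exact h2
  have hgood : (∃ S ⊆ constellations m X, η * (constellations m X).card ≤ S.card ∧
      ¬ ∃ d : ℕ, 1 ≤ d ∧ (d : ℝ) ≤ Real.log X ^ B ∧ (X : ℝ) ^ (99 / 100 : ℝ) ≤ (progressions S J d : ℝ)) ↔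
      ¬ Pool.Agent.J4H32.MV.GoodSc (fun _ => false) m X J B η := by
    unfold Pool.Agent.J4H32.MV.GoodSc
    rw [← hcst]
    constructor
    · rintro ⟨S, hS, hc, hn⟩ hg
      exact hn (hg S hS hc)
    · intro h
      by_contra hcon
      apply h
      intro S hS hc
      by_contra hn
      exact hcon ⟨S, hS, hc, hn⟩
  have hrg : ∀ i, m i ∈ Pool.Agent.J4H32.MV.rgX false X ↔ 1 ≤ m i ∧ m i ≤ X := by
    intro i
    show m i ∈ Finset.Icc 1 X ↔ _
    rw [Finset.mem_Icc]
  rw [Finset.mem_coe, Finset.mem_filter, Fintype.mem_piFinset, ← hadm, ← hgood]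
  simp only [exceptional, Set.mem_ofPred_eq]
  constructor
  · rintro ⟨h1, h2, h3⟩
    exact ⟨fun i => (hrg i).2 (h1 i), h2, h3⟩
  · rintro ⟨h1, h2, h3⟩
    exact ⟨fun i => (hrg i).1 (h1 i), h2, h3⟩

end Pool.Agent.Results.MP_8923e7_nt.ProgressionsInConstellations
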